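import Pool.Agent.H93.EG.Targets

/-!
# Invariant functions of polygonal billiards: assembly of the main theorem and of Q1
-/

namespace Pool.Agent.H93.EG

open MeasureTheory Set Metric Filter Topology Pool.Agent.H93.BL
open Pool.Agent.H93.EN hiding T_B1 T_B2 T_B3 T_SB T_SC
open scoped ContDiff

theorem infG (h : T_INF) : ∀ (ι : Type) [Finite ι] (P : Polygon ι) (E : Set ι) (U : Set ℂ),
    IsOpen U → U ⊆ P.Ω → InvG P (FE P E U) := by
  intro ι _ P E U hU hUP
  have h' := h ι P E U hU hUP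
  exact ⟨h'.meas, h'.bd, h'.out, h'.flow, h'.cross⟩

theorem sm2 (hdat : T_DAT) (hinf : T_INF) (hsml : T_SML) : T_SM2 := by
  intro ι _ P E U hU hUP hne ε hε
  obtain ⟨D, hDP, hDF, -⟩ := hdat ι P (FE P E U) (hinf ι P E U hU hUP)
  obtain ⟨x₀, s, hs, hb, h⟩ := hsml ι P E U hU hUP hne D hDP hDF ε hε
  refine ⟨x₀, s, hs, by rw [← hDP]; exact hb, ?_⟩
  intro x hx
  have := h x hx
  simpa only [Dat.f0, hDF] using this

/-- if the mean of `FE` is constant almost everywhere then it is zero -/
theorem fe_zero (hb2 : Pool.Agent.H93.EN.T_B2) (hmain : T_MAIN) (hinf : T_INF) (hsm : T_SM2) :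
    ∀ (ι : Type) [Finite ι] (P : Polygon ι) (E : Set ι) (U : Set ℂ), IsOpen U → U ⊆ P.Ω →
      E.Nonempty ∨ U.Nonempty → ∀ᵐ x ∂(volume.restrict P.Ω), av (FE P E U x) = 0 := by
  intro ι _ P E U hU hUP hne
  have hF := infG hinf ι P E U hU hUP
  obtain ⟨c, hc⟩ := hmain ι P (FE P E U) hF 0
  have hmx : ∀ x, Measurable (FE P E U x) := fun x => hF.meas.of_uncurry_left
  have hbd : ∀ x w, ‖w‖ = 1 → |FE P E U x w| ≤ 1 := fun x w _ => by
    rw [abs_of_nonneg (hF.bd x w).1]; exact (hF.bd x w).2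
  have h0 : ∀ x, md (FE P E U x) 0 = (av (FE P E U x) : ℂ) := fun x =>
    (hb2 (FE P E U x) (FE P E U x) 1 (hmx x) (hmx x) (hbd x) (hbd x)).1
  have hpos : ∀ x, 0 ≤ av (FE P E U x) := by
    intro x
    have h1 := (hb2 (fun _ => (0 : ℝ)) (FE P E U x) 1 measurable_const (hmx x)
      (fun w _ => by simp) (hbd x)).2.1 (fun w _ => (hF.bd x w).1)
    have h2 : av (fun _ => (0 : ℝ)) = 0 := by simp [av]
    rw [h2] at h1; exact h1
  -- the constant is at most every `ε`
  have hle : ∀ ε > (0 : ℝ), c.re ≤ ε := by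
    intro ε hε
    obtain ⟨x₀, s, hs, hb, h⟩ := hsm ι P E U hU hUP hne ε hε
    have hball : 0 < volume (ball x₀ s) := measure_ball_pos _ _ hs
    have hc' : ∀ᵐ x ∂(volume.restrict (ball x₀ s)), md (FE P E U x) 0 = c :=
      ae_mono (Measure.restrict_mono hb le_rfl) hc
    have hmem : ∀ᵐ x ∂(volume.restrict (ball x₀ s)), x ∈ ball x₀ s :=
      ae_restrict_mem measurableSet_ball
    have hne' : NeBot (ae (volume.restrict (ball x₀ s))) := by
      rw [ae_neBot]
      intro h0'
      rw [Measure.restrict_eq_zero] at h0'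
      exact hball.ne' h0'
    obtain ⟨x, hx1, hx2⟩ := (hc'.and hmem).exists
    have := h x hx2
    rw [h0 x] at hx1
    have h3 := congrArg Complex.re hx1
    rw [Complex.ofReal_re] at h3
    rw [← h3]; exact this
  have hc0 : c.re ≤ 0 := le_of_forall_pos_le_add fun ε hε => by simpa using hle ε hε
  filter_upwards [hc] with x hx
  rw [h0 x] at hx
  have h3 := congrArg Complex.re hx
  rw [Complex.ofReal_re] at h3
  exact le_antisymm (h3 ▸ hc0) (hpos x)

theorem q1 (hb2 : Pool.Agent.H93.EN.T_B2) (hmain : T_MAIN) (hinf : T_INF) (hsm : T_SM2)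
    (hflo : T_FLO) (hm9 : T_M9) : T_Q1 := by
  intro ι _ P E hE X hXm hX hXE
  have hU : (∅ : Set ℂ) ⊆ P.Ω := empty_subset _
  have h0 := fe_zero hb2 hmain hinf hsm ι P E ∅ isOpen_empty hU (Or.inl hE)
  have h1 := hflo ι P E ∅ isOpen_empty hU h0
  intro i
  have h2 := hm9 ι P E X hX hXE i
  have h3 : ∀ᵐ z ∂(P.liouville i), z ∈ X i := by
    filter_upwards [h1 i, h2] with z hz1 hz2
    by_contra hz
    obtain ⟨f, hf0, hf⟩ := hz2 hz
    refine hz1 ⟨f, hf0, fun n => ⟨(hf n).1, (hf n).2.2.1, ?_⟩⟩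
    rintro ⟨r, -, hr, -⟩
    exact hr
  exact h3

theorem op2 (hb2 : Pool.Agent.H93.EN.T_B2) (hmain : T_MAIN) (hinf : T_INF) (hsm : T_SM2)
    (hflo : T_FLO) (hfwd : T_FWD) : T_OP2 := by
  intro ι _ P U hU hUP hUn
  have h0 := fe_zero hb2 hmain hinf hsm ι P ∅ U hU hUP (Or.inr hUn)
  exact hfwd ι P ∅ U hU hUP (hflo ι P ∅ U hU hUP h0)

theorem de2 (hop : T_OP2) (hden : T_DEN) : T_DE2 := fun ι _ P => hden ι P (hop ι P)

/-- the main theorem from the a priori inequality, the approximation and the limit lemma -/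
theorem main (hb2 : Pool.Agent.H93.EN.T_B2) (hsta : T_STA) (hstc : T_STC) (hlim : T_LIM)
    (hreg : T_AR) (hab : T_AB) : T_MAIN := by
  intro ι _ P F hF k
  -- the sequence
  have hε : ∀ n : ℕ, (0 : ℝ) < 1 / ((n : ℝ) + 1) := fun n => by positivity
  choose δ hδ G N hS hgh hGF using fun n : ℕ => hstc ι P F hF (1 / ((n : ℝ) + 1)) (hε n)
  have hvol : volume P.Ω < ⊤ := (hab ι P (δ 0) (G 0) (N 0) (hδ 0) (hS 0)).1
  have hΩm : MeasurableSet P.Ω := (hab ι P (δ 0) (G 0) (N 0) (hδ 0) (hS 0)).2.1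
  have hfin : IsFiniteMeasure (volume.restrict P.Ω) := ⟨by rwa [Measure.restrict_apply_univ]⟩
  -- the modes of `F`
  have hmx : ∀ x, Measurable (F x) := fun x => hF.meas.of_uncurry_left
  have hbF : ∀ x w, ‖w‖ = 1 → |F x w| ≤ 1 := fun x w _ => by
    rw [abs_of_nonneg (hF.bd x w).1]; exact (hF.bd x w).2
  have hmG : ∀ n x, Measurable (G n x) := fun n x => (hS n).mG.of_uncurry_left
  have hbG : ∀ n x w, ‖w‖ = 1 → |G n x w| ≤ 1 := fun n x w _ => by
    rw [abs_of_nonneg ((hS n).bG x w).1]; exact ((hS n).bG x w).2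
  have hfm : Measurable fun x => md (F x) k := by
    have h1 : Measurable fun p : ℂ × ℝ => (F p.1 (Complex.exp ((p.2 : ℂ) * Complex.I)) : ℂ) *
        Complex.exp (-((k : ℂ) * (p.2 : ℂ) * Complex.I)) := by
      apply Measurable.mul
      · apply Complex.measurable_ofReal.comp
        exact hF.meas.comp (measurable_fst.prodMk
          (by fun_prop : Measurable fun p : ℂ × ℝ => Complex.exp ((p.2 : ℂ) * Complex.I)))
      · fun_prop
    have h2 : StronglyMeasurable fun x : ℂ => ∫ θ in Ioc (0 : ℝ) (2 * Real.pi),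
        (F x (Complex.exp ((θ : ℂ) * Complex.I)) : ℂ) *
          Complex.exp (-((k : ℂ) * (θ : ℂ) * Complex.I)) :=
      h1.stronglyMeasurable.integral_prod_right'
        (f := fun p : ℂ × ℝ => (F p.1 (Complex.exp ((p.2 : ℂ) * Complex.I)) : ℂ) *
          Complex.exp (-((k : ℂ) * (p.2 : ℂ) * Complex.I)))
    have h3 : (fun x => md (F x) k) = fun x : ℂ => (((2 * Real.pi)⁻¹ : ℝ) : ℂ) *
        ∫ θ in Ioc (0 : ℝ) (2 * Real.pi), (F x (Complex.exp ((θ : ℂ) * Complex.I)) : ℂ) *
          Complex.exp (-((k : ℂ) * (θ : ℂ) * Complex.I)) := by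
      funext x
      simp only [md]
      rw [intervalIntegral.integral_of_le (by positivity)]
    rw [h3]
    exact h2.measurable.const_mul _
  have hfb : ∀ x, ‖md (F x) k‖ ≤ 1 := fun x => by
    have h := (hb2 (F x) (F x) 1 (hmx x) (hmx x) (hbF x) (hbF x))
    exact ((h.2.2.2 k).1).trans h.2.2.1
  have hfi : IntegrableOn (fun x => md (F x) k) P.Ω :=
    Measure.integrableOn_of_bounded (M := 1) hvol.ne hfm.aestronglyMeasurable
      (Eventually.of_forall hfb)
  -- the approximations
  have hun : ∀ n, IntegrableOn (um (G n) k) P.Ω := fun n => by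
    obtain ⟨-, -, C, -, h⟩ := hab ι P (δ n) (G n) (N n) (hδ n) (hS n)
    exact Measure.integrableOn_of_bounded (M := 1) hvol.ne (h k).1.1.aestronglyMeasurable
      (Eventually.of_forall (h k).1.2)
  have hC1 : ∀ n, ContDiffOn ℝ 1 (um (G n) k) P.Ω := fun n =>
    ((hreg ι P (δ n) (G n) (N n) (hδ n) (hS n) k).1).of_le (by norm_num)
  -- bound of the derivative
  have hfd : ∀ n, ∀ x ∈ P.Ω, ‖fderiv ℝ (um (G n) k) x‖ ≤ ‖ux (N n) k x‖ + ‖uy (N n) k x‖ := by
    intro n x hx
    obtain ⟨h1, h2⟩ := (hreg ι P (δ n) (G n) (N n) (hδ n) (hS n) k).2 x hx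
    refine ContinuousLinearMap.opNorm_le_bound _ (by positivity) fun v => ?_
    have hv : v = v.re • (1 : ℂ) + v.im • Complex.I := by
      simp only [Complex.real_smul, mul_one]
      exact (Complex.re_add_im v).symm
    conv_lhs => rw [hv]
    rw [map_add, map_smul, map_smul, h1, h2]
    calc ‖v.re • ux (N n) k x + v.im • uy (N n) k x‖
        ≤ |v.re| * ‖ux (N n) k x‖ + |v.im| * ‖uy (N n) k x‖ := by
          refine (norm_add_le _ _).trans ?_
          rw [norm_smul, norm_smul, Real.norm_eq_abs, Real.norm_eq_abs]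
      _ ≤ ‖v‖ * ‖ux (N n) k x‖ + ‖v‖ * ‖uy (N n) k x‖ := by
          gcongr
          · exact Complex.abs_re_le_norm v
          · exact Complex.abs_im_le_norm v
      _ = (‖ux (N n) k x‖ + ‖uy (N n) k x‖) * ‖v‖ := by ring
  have hcont : ∀ n, ContinuousOn (fun x => fderiv ℝ (um (G n) k) x) P.Ω := fun n =>
    (hC1 n).continuousOn_fderiv_of_isOpen P.isOpen le_rfl
  have hfdm : ∀ n, AEStronglyMeasurable (fun x => ‖fderiv ℝ (um (G n) k) x‖)
      (volume.restrict P.Ω) := fun n => ((hcont n).norm).aestronglyMeasurable hΩm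
  have hfdi : ∀ n, IntegrableOn (fun x => ‖fderiv ℝ (um (G n) k) x‖) P.Ω := fun n => by
    obtain ⟨-, -, C, hC0, h⟩ := hab ι P (δ n) (G n) (N n) (hδ n) (hS n)
    refine Integrable.of_bound (hfdm n) (C + C) ?_
    filter_upwards [ae_restrict_mem hΩm] with x hx
    rw [norm_norm]
    exact (hfd n x hx).trans (add_le_add ((h k).2.1.2 x) ((h k).2.2.1.2 x))
  -- first limit
  have hlim1 : Tendsto (fun n => ∫ x in P.Ω, ‖um (G n) k x - md (F x) k‖) atTop (𝓝 0) := by
    refine squeeze_zero (fun n => integral_nonneg fun x => norm_nonneg _) (fun n => ?_)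
      (tendsto_one_div_add_atTop_nhds_zero_nat (𝕜 := ℝ))
    refine le_trans ?_ (hGF n)
    have hpt : ∀ x, ‖um (G n) k x - md (F x) k‖ ≤ av (fun w => |G n x w - F x w|) := by
      intro x
      have hb := hb2 (fun w => G n x w - F x w) (F x) 1 ((hmG n x).sub (hmx x)) (hmx x)
        (fun w _ => by
          rw [abs_le]; constructor <;>
          linarith [((hS n).bG x w).1, ((hS n).bG x w).2, (hF.bd x w).1, (hF.bd x w).2])
        (hbF x)
      have hadd := ((hb.2.2.2 k).2.2.1)
      have he : (fun w => G n x w - F x w + F x w) = G n x := by funext w; ring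
      rw [he] at hadd
      have : um (G n) k x - md (F x) k = md (fun w => G n x w - F x w) k := by
        rw [show um (G n) k x = md (G n x) k from rfl, hadd]; ring
      rw [this]
      exact (hb.2.2.2 k).1
    have hint1 : IntegrableOn (fun x => ‖um (G n) k x - md (F x) k‖) P.Ω :=
      ((hun n).sub hfi).norm
    by_cases hint2 : IntegrableOn (fun x => av (fun w => |G n x w - F x w|)) P.Ω
    · exact setIntegral_mono hint1 hint2 hpt
    · exfalso
      apply hint2
      have hm : Measurable fun x => av (fun w => |G n x w - F x w|) := by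
        have h1 : Measurable fun p : ℂ × ℝ => |G n p.1 (Complex.exp ((p.2 : ℂ) * Complex.I)) -
            F p.1 (Complex.exp ((p.2 : ℂ) * Complex.I))| := by
          have h0 : Measurable fun p : ℂ × ℝ => (p.1, Complex.exp ((p.2 : ℂ) * Complex.I)) :=
            measurable_fst.prodMk (by fun_prop)
          exact _root_.continuous_abs.measurable.comp
            (((hS n).mG.comp h0).sub (hF.meas.comp h0))
        have h2 : StronglyMeasurable fun x : ℂ => ∫ θ in Ioc (0 : ℝ) (2 * Real.pi),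
            |G n x (Complex.exp ((θ : ℂ) * Complex.I)) -
              F x (Complex.exp ((θ : ℂ) * Complex.I))| :=
          h1.stronglyMeasurable.integral_prod_right'
            (f := fun p : ℂ × ℝ => |G n p.1 (Complex.exp ((p.2 : ℂ) * Complex.I)) -
              F p.1 (Complex.exp ((p.2 : ℂ) * Complex.I))|)
        have h3 : (fun x => av (fun w => |G n x w - F x w|)) = fun x : ℂ => (2 * Real.pi)⁻¹ *
            ∫ θ in Ioc (0 : ℝ) (2 * Real.pi), |G n x (Complex.exp ((θ : ℂ) * Complex.I)) -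
              F x (Complex.exp ((θ : ℂ) * Complex.I))| := by
          funext x
          simp only [av]
          rw [intervalIntegral.integral_of_le (by positivity)]
        rw [h3]
        exact h2.measurable.const_mul _
      refine Measure.integrableOn_of_bounded (M := 1) hvol.ne hm.aestronglyMeasurable ?_
      refine Eventually.of_forall fun x => ?_
      have hb := hb2 (fun w => G n x w - F x w) (F x) 1 ((hmG n x).sub (hmx x)) (hmx x)
        (fun w _ => by
          rw [abs_le]; constructor <;>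
          linarith [((hS n).bG x w).1, ((hS n).bG x w).2, (hF.bd x w).1, (hF.bd x w).2])
        (hbF x)
      rw [Real.norm_eq_abs, abs_of_nonneg ((norm_nonneg _).trans (hb.2.2.2 k).1)]
      exact hb.2.2.1
  -- second limit
  have hlim2 : Tendsto (fun n => ∫ x in P.Ω, ‖fderiv ℝ (um (G n) k) x‖) atTop (𝓝 0) := by
    set V : ℝ := (volume P.Ω).toReal with hV
    -- bound for every `n` and `l > 0`
    have hbound : ∀ n, ∫ x in P.Ω, ‖fderiv ℝ (um (G n) k) x‖ ≤
        √(1 / ((n : ℝ) + 1)) * V + √(1 / ((n : ℝ) + 1)) * 4 := by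
      intro n
      obtain ⟨-, -, C, hC0, h⟩ := hab ι P (δ n) (G n) (N n) (hδ n) (hS n)
      set e : ℝ := 1 / ((n : ℝ) + 1) with he
      have he0 : 0 < e := hε n
      set l : ℝ := √e with hl
      have hl0 : 0 < l := Real.sqrt_pos.2 he0
      have hll : l * l = e := Real.mul_self_sqrt he0.le
      have hE : ∫ x in P.Ω, (‖ux (N n) k x‖ ^ 2 + ‖uy (N n) k x‖ ^ 2) ≤ 4 * e := by
        refine (hsta ι P (δ n) (G n) (N n) (hδ n) (hS n) k).trans ?_
        have h1 : √(nrm P.Ω (gN (N n))) * √(nrm P.Ω (hN (N n))) ≤ e := by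
          have hg0 : 0 ≤ nrm P.Ω (gN (N n)) := integral_nonneg fun x => ((h k).2.2.2.2.2.1.2 x).1
          rw [← Real.sqrt_mul hg0]
          rw [show e = √(e ^ 2) from (Real.sqrt_sq he0.le).symm]
          exact Real.sqrt_le_sqrt (hgh n)
        nlinarith
      have hiq : IntegrableOn (fun x => ‖ux (N n) k x‖ ^ 2 + ‖uy (N n) k x‖ ^ 2) P.Ω := by
        refine Measure.integrableOn_of_bounded (M := C ^ 2 + C ^ 2) hvol.ne
          (((h k).2.1.1.norm.pow_const 2).add
            ((h k).2.2.1.1.norm.pow_const 2)).aestronglyMeasurable ?_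
        refine Eventually.of_forall fun x => ?_
        rw [Real.norm_eq_abs, abs_of_nonneg (by positivity)]
        have h1 := (h k).2.1.2 x
        have h2 := (h k).2.2.1.2 x
        gcongr
      have hpt : ∀ x ∈ P.Ω, ‖fderiv ℝ (um (G n) k) x‖ ≤
          l + (1 / l) * (‖ux (N n) k x‖ ^ 2 + ‖uy (N n) k x‖ ^ 2) := by
        intro x hx
        refine (hfd n x hx).trans ?_
        have h1 : ∀ t : ℝ, t ≤ l / 2 + (1 / l) * t ^ 2 := by
          intro t
          have : 0 ≤ (t - l / 2) ^ 2 / l + l / 4 := by positivity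
          have h2 : (t - l / 2) ^ 2 / l + l / 4 = l / 2 + (1 / l) * t ^ 2 - t := by
            field_simp; ring
          linarith
        have h2 := h1 ‖ux (N n) k x‖
        have h3 := h1 ‖uy (N n) k x‖
        linarith [mul_add (1 / l) (‖ux (N n) k x‖ ^ 2) (‖uy (N n) k x‖ ^ 2)]
      calc ∫ x in P.Ω, ‖fderiv ℝ (um (G n) k) x‖
          ≤ ∫ x in P.Ω, (l + (1 / l) * (‖ux (N n) k x‖ ^ 2 + ‖uy (N n) k x‖ ^ 2)) := by
            refine setIntegral_mono_on (hfdi n) ?_ hΩm hpt
            exact (integrable_const _).add (hiq.const_mul _)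
        _ = l * V + (1 / l) * ∫ x in P.Ω, (‖ux (N n) k x‖ ^ 2 + ‖uy (N n) k x‖ ^ 2) := by
            rw [integral_add (integrable_const _) (hiq.const_mul _), integral_const_mul]
            congr 1
            rw [integral_const, smul_eq_mul, hV, mul_comm]
            simp [Measure.real]
        _ ≤ l * V + (1 / l) * (4 * e) := by gcongr
        _ = l * V + l * 4 := by
            rw [← hll]; field_simp
    refine squeeze_zero (fun n => integral_nonneg fun x => norm_nonneg _) hbound ?_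
    have h1 : Tendsto (fun n : ℕ => √(1 / ((n : ℝ) + 1))) atTop (𝓝 0) := by
      have := (Real.continuous_sqrt.tendsto 0).comp
        (tendsto_one_div_add_atTop_nhds_zero_nat (𝕜 := ℝ))
      rw [Real.sqrt_zero] at this
      exact this
    have h2 := (h1.mul_const V).add (h1.mul_const 4)
    simpa using h2
  exact hlim P.Ω (fun x => md (F x) k) (fun n => um (G n) k) P.isOpen
    P.isConnected.isPreconnected hfi hC1 hun hfdi hlim1 hlim2

end Pool.Agent.H93.EG
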