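import Pool.Agent.H93.EN.Defs

/-!
# Invariant functions of polygonal billiards: definitions for the modules
-/

namespace Pool.Agent.H93.EG

open MeasureTheory Set Metric Pool.Agent.H93.BL
open Pool.Agent.H93.EN (av md rf chi gchi Bd Ml Nl Agr sg VV Chart LS Phi FE)
open scoped ContDiff

section table

variable {ι : Type} (P : Polygon ι)

/-- invariant functions of the billiard flow with values in `[0,1]` -/
structure InvG (F : ℂ → ℂ → ℝ) : Prop where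
  meas : Measurable (Function.uncurry F)
  bd : ∀ y w, 0 ≤ F y w ∧ F y w ≤ 1
  out : ∀ y w, y ∉ P.Ω → F y w = 0
  flow : ∀ (y w : ℂ) (t : ℝ), ‖w‖ = 1 → 0 ≤ t → (∀ r ∈ Icc 0 t, y + (r : ℂ) * w ∈ P.Ω) →
    F (y + (t : ℂ) * w) w = F y w
  cross : ∀ (j : ι) (y w : ℂ) (t s : ℝ), ‖w‖ = 1 → 0 < t → 0 < s → ip w (P.n j) < 0 →
    (∀ r ∈ Ico 0 t, y + (r : ℂ) * w ∈ P.Ω) →
    y + (t : ℂ) * w ∈ openSegment ℝ (P.p j) (P.q j) →
    (∀ r ∈ Ioc 0 s, y + (t : ℂ) * w + (r : ℂ) * P.refl j w ∈ P.Ω) →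
    F (y + (t : ℂ) * w + (s : ℂ) * P.refl j w) (P.refl j w) = F y w

/-- Functions `G` of position and direction, with gradient `N` (as a complex number), which are
locally mollifications at the scale `δ`, compatible with the reflection at the sides and zero near
the vertices. -/
structure Sm (δ : ℝ) (G : ℂ → ℂ → ℝ) (N : ℂ → ℂ → ℂ) : Prop where
  mG : Measurable (Function.uncurry G)
  mN : Measurable (Function.uncurry N)
  bG : ∀ x w, 0 ≤ G x w ∧ G x w ≤ 1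
  bN : ∃ C : ℝ, ∀ x w, ‖N x w‖ ≤ C
  int : ∀ x₀ ∈ P.Ω, ∃ s > (0 : ℝ), ∃ Φ : ℂ → ℂ → ℝ, Bd Φ ∧
    ∀ x ∈ ball x₀ s, x ∈ P.Ω ∧ G x = Ml Φ δ x ∧ N x = Nl Φ δ x
  side : ∀ j, ∀ x₀ ∈ openSegment ℝ (P.p j) (P.q j), ∃ s > (0 : ℝ), ∃ Φ : ℂ → ℂ → ℝ, Bd Φ ∧
    (∀ᵐ y : ℂ, y ∈ ball x₀ (δ + s) → ∀ w, Φ (P.aff j y) (P.refl j w) = Φ y w) ∧
    ∀ x ∈ ball x₀ s, 0 < sg P j x → x ∈ P.Ω ∧ G x = Ml Φ δ x ∧ N x = Nl Φ δ x
  vert : ∀ v, P.Vtx v → ∃ s > (0 : ℝ), ∀ x ∈ ball v s, x ∈ P.Ω →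
    (∀ w, G x w = 0) ∧ ∀ w, N x w = 0

end table

/-- derivative along the direction -/
noncomputable def gN (N : ℂ → ℂ → ℂ) (x w : ℂ) : ℝ := (N x w * (starRingEnd ℂ) w).re

/-- derivative orthogonal to the direction -/
noncomputable def hN (N : ℂ → ℂ → ℂ) (x w : ℂ) : ℝ := (N x w * (starRingEnd ℂ) w).im

/-- square of the `L²` norm -/
noncomputable def nrm (Ω : Set ℂ) (g : ℂ → ℂ → ℝ) : ℝ := ∫ x in Ω, av fun w => g x w ^ 2

/-- modes -/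
noncomputable def um (G : ℂ → ℂ → ℝ) (k : ℤ) (x : ℂ) : ℂ := md (G x) k

/-- modes of the derivative in direction `1` -/
noncomputable def ux (N : ℂ → ℂ → ℂ) (k : ℤ) (x : ℂ) : ℂ := md (fun w => (N x w).re) k

/-- modes of the derivative in direction `I` -/
noncomputable def uy (N : ℂ → ℂ → ℂ) (k : ℤ) (x : ℂ) : ℂ := md (fun w => (N x w).im) k

/-- Green's identity for the test function `η` -/
def GId (Ω : Set ℂ) (G : ℂ → ℂ → ℝ) (N : ℂ → ℂ → ℂ) (k : ℤ) (η : ℂ → ℝ) : Prop :=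
  ∫ x in Ω, η x * ((starRingEnd ℂ) (ux N k x) * uy N k x).im =
    -(1 / 2) * ∫ x in Ω, ((starRingEnd ℂ) (um G k x) *
      ((fderiv ℝ η x 1 : ℂ) * uy N k x - (fderiv ℝ η x Complex.I : ℂ) * ux N k x)).im

end Pool.Agent.H93.EG
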