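import Pool.Agent.H75.ERG.Main
import Pool.Agent.H21.EN.DAT
import Pool.Agent.H64.EN.LI
import Pool.Agent.H50.EN.MU
import Pool.Agent.H11.EN.LW
import Pool.Agent.H68.EN.BD
import Pool.Agent.H27.EN.SML
import Pool.Agent.H54.EN.FEC
import Pool.Agent.H34.EN.ARC
import Pool.Agent.H80.EN.INM
import Pool.Agent.H70.EN.INC
import Pool.Agent.H32.EN.INF
import Pool.Agent.H37.EN.RF
import Pool.Agent.H1.EN.RUH
import Pool.Agent.H2.EN.RO
import Pool.Agent.H38.EN.PRO
import Pool.Agent.H37.EN.HC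
import Pool.Agent.H11.EN.SC
import Pool.Agent.H37.EN.FL1
import Pool.Agent.H33.EN.FLO
import Pool.Agent.H45.EN.FWD
import Pool.Agent.H19.EN.DEN

/-!
# Density of almost every billiard orbit, and a second proof of Q1
-/

namespace Pool.Agent.H93.EG.Fin

open Pool.Agent.H93.EG Pool.Agent.H75.ERG.Final Pool.Agent.H75.ERG.Main
open Pool.Agent.H93.EN hiding T_B1 T_B2 T_B3 T_SB T_SC

theorem pSC : Pool.Agent.H93.EN.T_SC := Pool.Agent.H11.EN.sc
theorem pPRO : T_PRO := Pool.Agent.H38.EN.pro pSC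
theorem pHC : T_HC := Pool.Agent.H37.EN.hc
theorem pRO : T_RO := Pool.Agent.H2.EN.ro pPRO pHC
theorem pRF : T_RF := Pool.Agent.H37.EN.rfT
theorem pRUH : T_RUH := Pool.Agent.H1.EN.ruh
theorem pINM : T_INM := Pool.Agent.H80.EN.inm pRO
theorem pINC : T_INC := Pool.Agent.H70.EN.inc pRF pRUH
theorem pINF : T_INF := Pool.Agent.H32.EN.infT pINM pINC pRF
theorem pLI : T_LI := Pool.Agent.H64.EN.li pCHT
theorem pMU : T_MU := Pool.Agent.H50.EN.mu pCHT pB3 pB2
theorem pLW : T_LW := Pool.Agent.H11.EN.lw pCHT pCH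
theorem pBD : T_BD := Pool.Agent.H68.EN.bd
theorem pDAT : T_DAT := Pool.Agent.H21.EN.dat pLS pCHT pAG pLI pMU pLW pBD
theorem pFEC : T_FEC := Pool.Agent.H54.EN.fec
theorem pARC : T_ARC := Pool.Agent.H34.EN.arcT
theorem pSML : T_SML := Pool.Agent.H27.EN.sml pLSS pCHT pFEC pARC pINM
theorem pFL1 : T_FL1 := Pool.Agent.H37.EN.fl1 pRUH
theorem pFLO : T_FLO := Pool.Agent.H33.EN.flo pFL1 pINM
theorem pFWD : T_FWD := Pool.Agent.H45.EN.fwd pPRO
theorem pDEN : T_DEN := Pool.Agent.H19.EN.den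
theorem pSM2 : T_SM2 := sm2 pDAT pINF pSML

/-- almost every orbit reaches a given nonempty open set -/
theorem pOP2 : T_OP2 := op2 pB2 pMAIN pINF pSM2 pFLO pFWD

/-- almost every orbit is dense in the table -/
theorem pDE2 : T_DE2 := de2 pOP2 pDEN

end Pool.Agent.H93.EG.Fin
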