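import Pool.Agent.H93.EG.Defs
import Pool.Agent.H93.EN.Targets4

/-!
# Invariant functions of polygonal billiards: targets of step A, of the limit and of Q1
-/

namespace Pool.Agent.H93.EG

open MeasureTheory Set Metric Filter Topology Pool.Agent.H93.BL
open Pool.Agent.H93.EN (av md rf chi gchi Bd Ml Nl Agr sg VV Chart LS Phi FE Sg PR)
open scoped ContDiff

/-! ## Step A -/

/-- regularity of the modes -/
def T_AR : Prop := ∀ (ι : Type) (P : Polygon ι) (δ : ℝ) (G : ℂ → ℂ → ℝ) (N : ℂ → ℂ → ℂ), 0 < δ →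
  Sm P δ G N → ∀ k : ℤ, ContDiffOn ℝ 2 (um G k) P.Ω ∧ ∀ x ∈ P.Ω,
    fderiv ℝ (um G k) x 1 = ux N k x ∧ fderiv ℝ (um G k) x Complex.I = uy N k x

/-- boundedness and measurability of the modes -/
def T_AB : Prop := ∀ (ι : Type) (P : Polygon ι) (δ : ℝ) (G : ℂ → ℂ → ℝ) (N : ℂ → ℂ → ℂ), 0 < δ →
  Sm P δ G N → volume P.Ω < ⊤ ∧ MeasurableSet P.Ω ∧ ∃ C : ℝ, 0 ≤ C ∧ ∀ k : ℤ,
    (Measurable (um G k) ∧ ∀ x, ‖um G k x‖ ≤ 1) ∧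
    (Measurable (ux N k) ∧ ∀ x, ‖ux N k x‖ ≤ C) ∧
    (Measurable (uy N k) ∧ ∀ x, ‖uy N k x‖ ≤ C) ∧
    (Measurable (fun x => md (gN N x) k) ∧ ∀ x, ‖md (gN N x) k‖ ≤ C) ∧
    (Measurable (fun x => md (hN N x) k) ∧ ∀ x, ‖md (hN N x) k‖ ≤ C) ∧
    (Measurable (fun x => av fun w => gN N x w ^ 2) ∧ ∀ x, 0 ≤ (av fun w => gN N x w ^ 2) ∧
      (av fun w => gN N x w ^ 2) ≤ C) ∧
    (Measurable (fun x => av fun w => hN N x w ^ 2) ∧ ∀ x, 0 ≤ (av fun w => hN N x w ^ 2) ∧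
      (av fun w => hN N x w ^ 2) ≤ C)

/-- Green's identity near points of the table -/
def T_AI : Prop := ∀ (ι : Type) (P : Polygon ι) (δ : ℝ) (G : ℂ → ℂ → ℝ) (N : ℂ → ℂ → ℂ), 0 < δ →
  Sm P δ G N → ∀ x₀ ∈ P.Ω, ∃ s > (0 : ℝ), ∀ η : ℂ → ℝ, ContDiff ℝ 2 η →
    tsupport η ⊆ ball x₀ s → ∀ k : ℤ, GId P.Ω G N k η

/-- Green's identity near inner points of sides -/
def T_AS : Prop := ∀ (ι : Type) [Finite ι] (P : Polygon ι) (δ : ℝ) (G : ℂ → ℂ → ℝ)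
  (N : ℂ → ℂ → ℂ), 0 < δ → Sm P δ G N → ∀ j, ∀ x₀ ∈ openSegment ℝ (P.p j) (P.q j),
    ∃ s > (0 : ℝ), ∀ η : ℂ → ℝ, ContDiff ℝ 2 η →
      tsupport η ⊆ ball x₀ s → ∀ k : ℤ, GId P.Ω G N k η

/-- Green's identity -/
def T_AG2 : Prop := ∀ (ι : Type) [Finite ι] (P : Polygon ι) (δ : ℝ) (G : ℂ → ℂ → ℝ)
  (N : ℂ → ℂ → ℂ), 0 < δ → Sm P δ G N → ∀ η : ℂ → ℝ, ContDiff ℝ 2 η → HasCompactSupport η →
    ∀ k : ℤ, GId P.Ω G N k η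

/-- the integral of the Jacobian of a mode is zero -/
def T_AJ : Prop := ∀ (ι : Type) [Finite ι] (P : Polygon ι) (δ : ℝ) (G : ℂ → ℂ → ℝ)
  (N : ℂ → ℂ → ℂ), 0 < δ → Sm P δ G N → ∀ k : ℤ,
    ∫ x in P.Ω, ((starRingEnd ℂ) (ux N k x) * uy N k x).im = 0

/-- the modes of the gradient in terms of the modes of `g` and `h` -/
def T_AP : Prop := ∀ (N : ℂ → ℂ → ℂ) (C : ℝ), Measurable (Function.uncurry N) →
  (∀ x w, ‖N x w‖ ≤ C) → ∀ (x : ℂ) (k : ℤ),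
    ux N k x + Complex.I * uy N k x = md (gN N x) (k - 1) + Complex.I * md (hN N x) (k - 1) ∧
    ux N k x - Complex.I * uy N k x = md (gN N x) (k + 1) - Complex.I * md (hN N x) (k + 1)

/-- sums over the modes -/
def T_AQ : Prop := ∀ (ι : Type) (P : Polygon ι) (δ : ℝ) (G : ℂ → ℂ → ℝ) (N : ℂ → ℂ → ℂ), 0 < δ →
  Sm P δ G N → ∀ s : Finset ℤ,
    ∑ k ∈ s, ∫ x in P.Ω, ‖md (gN N x) k‖ ^ 2 ≤ nrm P.Ω (gN N) ∧
    ∑ k ∈ s, ∫ x in P.Ω, ‖md (hN N x) k‖ ^ 2 ≤ nrm P.Ω (hN N) ∧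
    ∑ k ∈ s, ∫ x in P.Ω, ‖md (gN N x) k‖ * ‖md (hN N x) k‖ ≤
      √(nrm P.Ω (gN N)) * √(nrm P.Ω (hN N))

/-- the a priori inequality -/
def T_STA : Prop := ∀ (ι : Type) [Finite ι] (P : Polygon ι) (δ : ℝ) (G : ℂ → ℂ → ℝ)
  (N : ℂ → ℂ → ℂ), 0 < δ → Sm P δ G N → ∀ k : ℤ,
    ∫ x in P.Ω, (‖ux N k x‖ ^ 2 + ‖uy N k x‖ ^ 2) ≤
      4 * √(nrm P.Ω (gN N)) * √(nrm P.Ω (hN N))

/-! ## The result of steps B and C -/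

/-- approximation of an invariant function -/
def T_STC : Prop := ∀ (ι : Type) [Finite ι] (P : Polygon ι) (F : ℂ → ℂ → ℝ), InvG P F →
  ∀ ε > (0 : ℝ), ∃ δ > (0 : ℝ), ∃ (G : ℂ → ℂ → ℝ) (N : ℂ → ℂ → ℂ), Sm P δ G N ∧
    nrm P.Ω (gN N) * nrm P.Ω (hN N) ≤ ε ^ 2 ∧
    ∫ x in P.Ω, av (fun w => |G x w - F x w|) ≤ ε

/-! ## Limit -/

/-- ball integrals of a differentiable function with small gradient -/
def T_LM1 : Prop := ∀ (u : ℂ → ℂ) (x₀ : ℂ) (R : ℝ), 0 < R → ContDiffOn ℝ 1 u (ball x₀ (2 * R)) →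
  IntegrableOn (fun x => ‖fderiv ℝ u x‖) (ball x₀ (2 * R)) →
  ∀ x ∈ ball x₀ R, ∀ x' ∈ ball x₀ R, ∀ s ∈ Ioc 0 (R / 2),
    ‖(∫ y in ball x s, u y) - ∫ y in ball x' s, u y‖ ≤
      2 * R * ∫ y in ball x₀ (2 * R), ‖fderiv ℝ u y‖

/-- a function with locally constant disc integrals is constant -/
def T_LM2 : Prop := ∀ (Ω : Set ℂ) (f : ℂ → ℂ), IsOpen Ω → IsPreconnected Ω → IntegrableOn f Ω →
  (∀ (x₀ : ℂ) (R : ℝ), 0 < R → ball x₀ (2 * R) ⊆ Ω → ∀ x ∈ ball x₀ R, ∀ x' ∈ ball x₀ R,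
    ∀ s ∈ Ioc 0 (R / 2), ∫ y in ball x s, f y = ∫ y in ball x' s, f y) →
  ∃ c : ℂ, ∀ᵐ x ∂(volume.restrict Ω), f x = c

/-- a limit of functions with gradients tending to zero is constant -/
def T_LIM : Prop := ∀ (Ω : Set ℂ) (f : ℂ → ℂ) (u : ℕ → ℂ → ℂ), IsOpen Ω → IsPreconnected Ω →
  IntegrableOn f Ω → (∀ n, ContDiffOn ℝ 1 (u n) Ω) → (∀ n, IntegrableOn (u n) Ω) →
  (∀ n, IntegrableOn (fun x => ‖fderiv ℝ (u n) x‖) Ω) →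
  Tendsto (fun n => ∫ x in Ω, ‖u n x - f x‖) atTop (𝓝 0) →
  Tendsto (fun n => ∫ x in Ω, ‖fderiv ℝ (u n) x‖) atTop (𝓝 0) →
  ∃ c : ℂ, ∀ᵐ x ∂(volume.restrict Ω), f x = c

/-! ## Main theorem -/

/-- all modes of an invariant function are constant -/
def T_MAIN : Prop := ∀ (ι : Type) [Finite ι] (P : Polygon ι) (F : ℂ → ℂ → ℝ), InvG P F →
  ∀ k : ℤ, ∃ c : ℂ, ∀ᵐ x ∂(volume.restrict P.Ω), md (F x) k = c

/-- smallness of the mean of `FE` near a point -/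
def T_SM2 : Prop := ∀ (ι : Type) [Finite ι] (P : Polygon ι) (E : Set ι) (U : Set ℂ), IsOpen U →
  U ⊆ P.Ω → E.Nonempty ∨ U.Nonempty → ∀ ε > (0 : ℝ), ∃ x₀ : ℂ, ∃ s > (0 : ℝ),
    ball x₀ s ⊆ P.Ω ∧ ∀ x ∈ ball x₀ s, av (FE P E U x) ≤ ε

/-- Q1 for all polygons -/
def T_Q1 : Prop := ∀ (ι : Type) [Fintype ι] (P : Polygon ι) (E : Set ι), E.Nonempty →
  P.Determines E

/-- almost every orbit reaches a given open set -/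
def T_OP2 : Prop := ∀ (ι : Type) [Fintype ι] (P : Polygon ι) (U : Set ℂ), IsOpen U →
  U ⊆ P.Ω → U.Nonempty → ∀ i, ∀ᵐ z ∂(P.liouville i), PR P ∅ U (i, z)

/-- almost every orbit is dense in the table -/
def T_DE2 : Prop := ∀ (ι : Type) [Fintype ι] (P : Polygon ι), ∀ i, ∀ᵐ z ∂(P.liouville i),
  P.Ω ⊆ closure (Pool.Agent.H93.EN.trace P (i, z))

end Pool.Agent.H93.EG
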